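import Mathlib
import Pool.Agent.Helper439.RFDefs
import Pool.Agent.H814Z.RF.Constr

namespace Pool.Agent.Results.MP_f3c5e4_al.ANonInteger

open Pool.Agent.Helper439.RF Pool.Agent.H814Z.RF LaurentPolynomial Polynomial
open Pool.Agent.Helper439.HallG (Det exists_wordLen)

/-- The residual finiteness growth function of our group. -/
noncomputable abbrev FF (n : ℕ) : ℕ := rfGrowth (SS RR) n

theorem FF_zero : FF 0 = 0 := by
  have h : Det (SS RR) 0 0 := by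
    intro g hg hw
    obtain ⟨l, h1, -, h3⟩ := exists_wordLen (SS RR) (SS_closure RR) g
    have h4 : l = [] := List.eq_nil_of_length_eq_zero (by omega)
    rw [h4] at h3
    exact absurd h3.symm hg
  exact Nat.le_zero.1 h.rf_le

theorem exists_level (n : ℕ) (hn : 1 ≤ n) : ∃ j, n ≤ nn j ∧ 2 ^ (12 * j) ≤ n := by
  classical
  have hex : ∃ j, n ≤ nn j := ⟨n, by have := nn_ge n; omega⟩
  refine ⟨Nat.find hex, Nat.find_spec hex, ?_⟩
  rcases Nat.eq_zero_or_pos (Nat.find hex) with h | h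
  · rw [h]; simpa using hn
  · have h1 := Nat.find_min hex (m := Nat.find hex - 1) (by omega)
    have h2 : nn (Nat.find hex - 1) = 2 ^ (12 * Nat.find hex) := by
      have h3 : Nat.find hex - 1 + 1 = Nat.find hex := by omega
      show 2 ^ (12 * (Nat.find hex - 1 + 1)) = _
      rw [h3]
    omega

theorem det_all (n : ℕ) : ∃ B, Det (SS RR) n B :=
  ⟨_, det_level n n (by have := nn_ge n; omega)⟩

theorem FF_upper (n : ℕ) (hn : 1 ≤ n) : ∃ j, FF n ≤ 2 ^ 163 * 2 ^ (162 * j) ∧ 2 ^ (12 * j) ≤ n := by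
  obtain ⟨j, h1, h2⟩ := exists_level n hn
  refine ⟨j, (det_level j n h1).rf_le.trans ?_, h2⟩
  rw [← pow_add]
  exact Nat.pow_le_pow_right (by norm_num) (by omega)

theorem FF_lower (j n : ℕ) (hn : 6 * nn j + 4 ≤ n) : 2 ^ (162 * (j + 1) - 1) ≤ FF n := by
  obtain ⟨B, hB⟩ := det_all n
  refine hB.le_rf (g := zeG RR (toLaurent (aa QQ j))) ?_ ((wordLen_zeG RR _ _ (aa_deg j)).trans hn) _
    (deep_level j)
  rw [Ne, zeG_eq_one_iff]
  exact aa_notMem j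

theorem two_pow_rpow (j : ℕ) : (((2 ^ (12 * j) : ℕ)) : ℝ) ^ (27 / 2 : ℝ) = ((2 ^ (162 * j) : ℕ) : ℝ) := by
  push_cast
  rw [← Real.rpow_natCast, ← Real.rpow_natCast, ← Real.rpow_mul (by norm_num)]
  congr 1
  push_cast
  ring

theorem upper_real : ∃ C : ℕ, 0 < C ∧ ∀ n : ℕ, (FF n : ℝ) ≤ C * ((C * n : ℕ) : ℝ) ^ (27 / 2 : ℝ) := by
  obtain ⟨C, hC⟩ : ∃ C : ℕ, C = 2 ^ 163 := ⟨_, rfl⟩
  have hC0 : 0 < C := by rw [hC]; positivity
  refine ⟨C, hC0, fun n => ?_⟩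
  rcases Nat.eq_zero_or_pos n with rfl | hn
  · rw [FF_zero]
    push_cast
    positivity
  · obtain ⟨j, h1, h2⟩ := FF_upper n hn
    rw [← hC] at h1
    have h3 : 2 ^ (12 * j) ≤ C * n := h2.trans (Nat.le_mul_of_pos_left n hC0)
    have h4 : (((2 ^ (12 * j) : ℕ)) : ℝ) ^ (27 / 2 : ℝ) ≤ ((C * n : ℕ) : ℝ) ^ (27 / 2 : ℝ) :=
      Real.rpow_le_rpow (by positivity) (by exact_mod_cast h3) (by norm_num)
    rw [two_pow_rpow] at h4
    calc (FF n : ℝ) ≤ ((C * 2 ^ (162 * j) : ℕ) : ℝ) := by exact_mod_cast h1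
      _ = C * ((2 ^ (162 * j) : ℕ) : ℝ) := by push_cast; ring
      _ ≤ C * ((C * n : ℕ) : ℝ) ^ (27 / 2 : ℝ) := mul_le_mul_of_nonneg_left h4 (by positivity)

theorem lower_real : ∃ C : ℕ, 0 < C ∧ ∀ n : ℕ, (n : ℝ) ^ (27 / 2 : ℝ) ≤ C * (FF (C * n) : ℝ) := by
  refine ⟨30000, by norm_num, fun n => ?_⟩
  rcases Nat.eq_zero_or_pos n with rfl | hn
  · rw [Nat.cast_zero, Real.zero_rpow (by norm_num)]
    positivity
  · obtain ⟨j, h1, h2⟩ := exists_level n hn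
    have h3 : nn j = 4096 * 2 ^ (12 * j) := by
      unfold nn
      rw [show 12 * (j + 1) = 12 + 12 * j by ring, pow_add]
      norm_num
    have h4 := FF_lower j (30000 * n) (by omega)
    have h5 : (n : ℝ) ^ (27 / 2 : ℝ) ≤ (((2 ^ (12 * (j + 1)) : ℕ)) : ℝ) ^ (27 / 2 : ℝ) :=
      Real.rpow_le_rpow (by positivity) (by exact_mod_cast h1) (by norm_num)
    rw [two_pow_rpow] at h5
    have h6 : 2 ^ (162 * (j + 1)) = 2 * 2 ^ (162 * (j + 1) - 1) := by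
      rw [← pow_succ']
      congr 1
    have h7 : 2 ^ (162 * (j + 1)) ≤ 30000 * FF (30000 * n) := by omega
    exact h5.trans (by exact_mod_cast h7)

theorem poly_bound : ∃ C : ℕ, 0 < C ∧ ∀ n : ℕ, FF n ≤ C * n ^ C := by
  obtain ⟨C, hC⟩ : ∃ C : ℕ, C = 2 ^ 163 := ⟨_, rfl⟩
  have h14 : 14 ≤ C := by
    rw [hC]
    calc 14 ≤ 2 ^ 4 := by norm_num
      _ ≤ 2 ^ 163 := Nat.pow_le_pow_right (by norm_num) (by norm_num)
  refine ⟨C, by omega, fun n => ?_⟩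
  rcases Nat.eq_zero_or_pos n with rfl | hn
  · rw [FF_zero]; exact Nat.zero_le _
  · obtain ⟨j, h1, h2⟩ := FF_upper n hn
    rw [← hC] at h1
    refine h1.trans (Nat.mul_le_mul_left _ ?_)
    calc 2 ^ (162 * j) ≤ 2 ^ (12 * j * 14) := Nat.pow_le_pow_right (by norm_num) (by omega)
      _ = (2 ^ (12 * j)) ^ 14 := by rw [pow_mul]
      _ ≤ n ^ 14 := Nat.pow_le_pow_left h2 14
      _ ≤ n ^ C := Nat.pow_le_pow_right hn h14

theorem resFinite : Group.ResiduallyFinite (GG RR) := by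
  rw [Group.residuallyFinite_iff_exists_finiteIndexNormalSubgroup]
  intro g hg
  obtain ⟨B, hB⟩ := det_all (wordLen (SS RR) g)
  obtain ⟨N, h1, h2, h3, _⟩ := hB g hg le_rfl
  exact ⟨⟨N, h1, h2⟩, h3⟩

/-- **Main theorem** (negation of Q2): there is a finitely generated residually finite group that is not
virtually nilpotent, whose residual finiteness growth function is polynomially bounded and is equivalent
to `n ^ (27 / 2)`. -/
theorem result : ∃ (G : Type) (_ : Group G) (S : Set G), S.Finite ∧ Subgroup.closure S = ⊤ ∧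
    Group.ResiduallyFinite G ∧ ¬ Group.IsVirtuallyNilpotent G ∧
    (∃ C : ℕ, 0 < C ∧ ∀ n : ℕ, rfGrowth S n ≤ C * n ^ C) ∧
    (∃ C : ℕ, 0 < C ∧ ∀ n : ℕ, (rfGrowth S n : ℝ) ≤ C * ((C * n : ℕ) : ℝ) ^ (27 / 2 : ℝ)) ∧
    (∃ C : ℕ, 0 < C ∧ ∀ n : ℕ, (n : ℝ) ^ (27 / 2 : ℝ) ≤ C * (rfGrowth S (C * n) : ℝ)) :=
  ⟨GG RR, inferInstance, SS RR, SS_finite RR, SS_closure RR, resFinite,
    fun ⟨H, h1, h2⟩ => not_virt_nilpotent RR H h2 h1, poly_bound, upper_real, lower_real⟩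

end Pool.Agent.Results.MP_f3c5e4_al.ANonInteger
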